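import Mathlib
import Pool.Agent.U301.LDThreeC

set_option autoImplicit false

namespace Pool.Agent.Results.MP_fe1d70_nt.SunThreeModFour

open Pool.Agent.R945.LD Pool.Agent.U301.LDThree NumberField Module

/-- the determinant `E_p` of the problem, index range `1 ≤ j, k ≤ (p-1)/2` -/
def E (p : ℕ) [Fact p.Prime] (R : Type) [CommRing R] (x y w : R) : R :=
  Matrix.det (Matrix.of fun j k : Fin ((p - 1) / 2) =>
        x + (legendreSym p (((j : ℤ) + 1) + ((k : ℤ) + 1)) : R)
          + (legendreSym p (((j : ℤ) + 1) - ((k : ℤ) + 1)) : R)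
          + (legendreSym p ((j : ℤ) + 1) : R) * y
          + (legendreSym p (((j : ℤ) + 1) * ((k : ℤ) + 1)) : R) * w)

/-- `E` over the field of coefficients where `p` is invertible -/
lemma E_eq (p : ℕ) [Fact p.Prime] (m : ℕ) (hm : p = 2 * m + 1) (R : Type) [CommRing R] (x y w : R) :
    E p R x y w = (Matrix.of fun j k : Fin m => x + Bm p m R j k + xv p m R j * y
      + xv p m R j * xv p m R k * w).det := by
  have hm1 : (p - 1) / 2 = m := by omega
  have hL : ∀ a : ℤ, legendreSym p a = q p (a : ZMod p) := fun a => rfl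
  unfold E
  rw [hm1]
  congr 1
  ext j k
  simp only [Matrix.of_apply, hL, xv, Bm, J]
  push_cast
  rw [q_mul]
  push_cast
  ring

lemma E_map (p : ℕ) [Fact p.Prime] (R T : Type) [CommRing R] [CommRing T] (φ : R →+* T) (x y w : R) :
    φ (E p R x y w) = E p T (φ x) (φ y) (φ w) := by
  unfold E
  rw [RingHom.map_det]
  congr 1
  ext j k
  simp [Matrix.map_apply]

/-- the right-hand side -/
def Rhs (p : ℕ) [Fact p.Prime] (h : ℕ) (c : ℤ) (R : Type) [CommRing R] (x y w : R) : R :=
  (p : R) ^ ((p - 3) / 4) * ((((p - 1) / 2 : ℕ) : R) * y - 1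
          + (2 - (legendreSym p 2 : R)) * (h : R) * (w + x))
        - (p : R) ^ ((p - 7) / 4) * ((legendreSym p 2 : R) * (16 * (c : R)) * w * x)

lemma Rhs_map (p : ℕ) [Fact p.Prime] (h : ℕ) (c : ℤ) (R T : Type) [CommRing R] [CommRing T]
    (φ : R →+* T) (x y w : R) : φ (Rhs p h c R x y w) = Rhs p h c T (φ x) (φ y) (φ w) := by
  unfold Rhs
  simp only [map_mul, map_pow, map_sub, map_add, map_one, map_natCast, map_intCast, map_ofNat]

/-- the identity over a ring in which `p` is invertible -/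
lemma overRing (p : ℕ) [Fact p.Prime] (hp3 : 3 < p) (h3 : p % 4 = 3) (m : ℕ) (hm : p = 2 * m + 1)
    (h s : ℕ) (hS : ∑ j, xv p m ℤ j = (2 - q p 2) * (h : ℤ))
    (hdet : (Bm p m ℤ).det = (-1) ^ s * (p : ℤ) ^ ((p - 3) / 4)) (c : ℤ)
    (hc : (∑ j, xv p m ℤ j) ^ 2 + m * Wq p m = 16 * c)
    (T : Type) [CommRing T] (ip : T) (hip : ip * p = 1) (x y w : T) :
    (-1) ^ (s + 1) * E p T x y w = Rhs p h (legendreSym p 2 * c) T x y w := by
  have hm1 : (p - 1) / 2 = m := by omega
  have hL : ∀ a : ℤ, legendreSym p a = q p (a : ZMod p) := fun a => rfl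
  have hq2 : legendreSym p 2 * legendreSym p 2 = 1 := by
    have := q_sq (p := p) (two_ne (by omega))
    rw [hL]; push_cast; exact this
  have hST : ∑ k, xv p m T k = (2 - ((legendreSym p 2 : ℤ) : T)) * (h : T) := by
    have := congrArg (Int.cast : ℤ → T) hS
    rw [hL]
    push_cast at this ⊢
    rw [← this]
    simp [xv]
  have hcT : (∑ k, xv p m T k) ^ 2 + (m : T) * (Wq p m : T) = 16 * (c : T) := by
    have := congrArg (Int.cast : ℤ → T) hc
    push_cast at this ⊢
    rw [← this]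
    simp [xv]
  have hq2T : ((legendreSym p 2 : ℤ) : T) * ((legendreSym p 2 : ℤ) : T) = 1 := by
    have := congrArg (Int.cast : ℤ → T) hq2
    push_cast at this ⊢
    exact this
  have e1 : (p - 3) / 4 = (p - 7) / 4 + 1 := by omega
  rw [E_eq p m hm, det_E h3 hm ip hip, ← Bm_cast, hdet, hcT, hST]
  unfold Rhs
  rw [e1, hm1]
  push_cast
  generalize ((legendreSym p 2 : ℤ) : T) = L at *
  have hsq : ((-1 : T) ^ s) * ((-1 : T) ^ s) = 1 := by
    rw [← mul_pow]; simp
  rw [pow_succ (-1 : T) s, pow_succ (p : T)]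
  generalize ((-1 : T) ^ s) = ε at *
  generalize ((p : T) ^ ((p - 7) / 4)) = pp at *
  generalize (c : T) = cc at *
  generalize (h : T) = hh' at *
  linear_combination
    (-(pp * p * (1 - m * y - (2 - L) * hh' * (w + x) + w * x * ip * (16 * cc)))) * hsq
    + (-(pp * w * x * (16 * cc))) * hip + (pp * 16 * cc * w * x) * hq2T

theorem result (p : ℕ) [Fact p.Prime] (hp3 : 3 < p) (h3 : p % 4 = 3) :
    ∃ c : ℤ, ∀ (K : Type) [Field K] [NumberField K], finrank ℚ K = 2 →
      (∃ β : K, β ^ 2 = -(p : K)) → ∀ (R : Type) [CommRing R] (x y w : R),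
      (-1) ^ ((classNumber K + 1) / 2) * E p R x y w =
        (p : R) ^ ((p - 3) / 4) * ((((p - 1) / 2 : ℕ) : R) * y - 1
          + (2 - (legendreSym p 2 : R)) * (classNumber K : R) * (w + x))
        - (p : R) ^ ((p - 7) / 4) * ((legendreSym p 2 : R) * (16 * (c : R)) * w * x) := by
  have hpp : p.Prime := Fact.out
  obtain ⟨m, hm⟩ : ∃ m, p = 2 * m + 1 := ⟨p / 2, by omega⟩
  obtain ⟨c, hc⟩ := sixteen h3 hm
  refine ⟨legendreSym p 2 * c, ?_⟩
  intro K _ _ h2 ⟨β, hβ⟩ R _ x y w
  have hS := half_sum p (by omega) h3 m hm K h2 β hβ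
  have hdet := det_B_three h3 hm (by omega) (classNumber K) hS
  -- parity of the class number
  have hodd : Odd (classNumber K) := by
    have hpar : (2 : ℤ) ∣ ∑ j, xv p m ℤ j - m := by
      have : ∑ j, xv p m ℤ j - m = ∑ j : Fin m, (xv p m ℤ j - 1) := by
        rw [Finset.sum_sub_distrib]; simp
      rw [this]
      apply Finset.dvd_sum
      intro j _
      rcases mul_self_eq_one_iff.mp (q_sq (J_ne hm j)) with h | h
      · simp only [xv, h]; norm_num
      · simp only [xv, h]; norm_num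
    rw [hS] at hpar
    have h2' : q p 2 = 1 ∨ q p 2 = -1 := mul_self_eq_one_iff.mp (q_sq (two_ne (by omega)))
    rw [Nat.odd_iff]
    rcases h2' with h | h <;> rw [h] at hpar <;> omega
  obtain ⟨s, hs⟩ := hodd
  have hs1 : (classNumber K - 1) / 2 = s := by omega
  have hs2 : (classNumber K + 1) / 2 = s + 1 := by omega
  rw [hs1] at hdet
  -- the polynomial identity over the integers
  have key : (-1 : MvPolynomial (Fin 3) ℤ) ^ (s + 1) *
      E p (MvPolynomial (Fin 3) ℤ) (MvPolynomial.X 0) (MvPolynomial.X 1) (MvPolynomial.X 2) =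
      Rhs p (classNumber K) (legendreSym p 2 * c) (MvPolynomial (Fin 3) ℤ) (MvPolynomial.X 0)
        (MvPolynomial.X 1) (MvPolynomial.X 2) := by
    have hinj : Function.Injective (MvPolynomial.map (σ := Fin 3) (Int.castRingHom ℚ)) :=
      MvPolynomial.map_injective _ (RingHom.injective_int _)
    apply hinj
    have hpQ : (p : ℚ) ≠ 0 := by exact_mod_cast hpp.ne_zero
    have hip1 : (MvPolynomial.C ((p : ℚ)⁻¹) : MvPolynomial (Fin 3) ℚ) * (p : MvPolynomial (Fin 3) ℚ) = 1 := by
      rw [← map_natCast (MvPolynomial.C (σ := Fin 3) (R := ℚ)) p, ← map_mul, inv_mul_cancel₀ hpQ, map_one]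
    rw [map_mul, E_map, Rhs_map, map_pow, map_neg, map_one]
    exact overRing p hp3 h3 m hm (classNumber K) s hS hdet c hc _ _ hip1 _ _ _
  -- transfer
  have h0 := congrArg (MvPolynomial.eval₂Hom (Int.castRingHom R) ![x, y, w]) key
  rw [map_mul, E_map, Rhs_map, map_pow, map_neg, map_one] at h0
  simp only [MvPolynomial.eval₂Hom_X', Matrix.cons_val_zero, Matrix.cons_val_one, Matrix.cons_val] at h0
  rw [hs2, h0]
  rfl

end Pool.Agent.Results.MP_fe1d70_nt.SunThreeModFour
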